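import Pool.Agent.helper48.AN.SpecD

namespace AN

open scoped Classical
open MvPowerSeries (constantCoeff coeff)

noncomputable section

theorem DE_triple {N : ℕ} {M : Type} [AddCommMonoid M] (α : Fin N →₀ ℕ)
    (F : (Fin N →₀ ℕ) → (Fin N →₀ ℕ) → (Fin N →₀ ℕ) → M) :
    ∑ p ∈ Finset.HasAntidiagonal.antidiagonal α,
        ∑ q ∈ Finset.HasAntidiagonal.antidiagonal p.1, F q.1 q.2 p.2 =
      ∑ p ∈ Finset.HasAntidiagonal.antidiagonal α,
        ∑ q ∈ Finset.HasAntidiagonal.antidiagonal p.2, F p.1 q.1 q.2 := by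
  simp only [Finset.sum_sigma']
  apply Finset.sum_nbij' (fun ⟨⟨_i, j⟩, ⟨k, l⟩⟩ ↦ ⟨(k, l + j), (l, j)⟩)
    (fun ⟨⟨i, _j⟩, ⟨k, l⟩⟩ ↦ ⟨(i + k, l), (i, k)⟩) <;>
    aesop (add simp [add_assoc, mul_assoc])

variable {k : Type} [Field k] {N : ℕ}

/-- `Φ` of a constant -/
def DE_T (h : Fin N → LS k) (f : LS k) : KK k N := fun β =>
  ∑ j ∈ Finset.range (β.degree + 1), hD j f * coeff β (del h ^ j)

theorem DE_coeff_T (h : Fin N → LS k) (f : LS k) (β : Fin N →₀ ℕ) :
    coeff β (DE_T h f) = ∑ j ∈ Finset.range (β.degree + 1), hD j f * coeff β (del h ^ j) := rfl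

theorem DE_coeff_Phi (h : Fin N → LS k) (x : KK k N) (α : Fin N →₀ ℕ) :
    coeff α (Phi h x) = ∑ q ∈ Finset.HasAntidiagonal.antidiagonal α,
      coeff q.2 (DE_T h (coeff q.1 x)) := rfl

theorem DE_coeff_resK (x : KK k N) (α : Fin N →₀ ℕ) : coeff α (resK x) = res (coeff α x) := rfl

theorem DE_coeff_ddK (x : KK k N) (α : Fin N →₀ ℕ) : coeff α (ddK x) = dd (coeff α x) := rfl

theorem DE_coeff_sw (f : LS (BB k N)) (α : Fin N →₀ ℕ) :
    coeff α (sw f) = cm (coeff (R := k) α).toAddMonoidHom f := rfl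

/-- reduction to constants -/
theorem DE_red (h : Fin N → LS k) (x u : KK k N) (α : Fin N →₀ ℕ) :
    coeff α (Phi h x * u) = ∑ p ∈ Finset.HasAntidiagonal.antidiagonal α,
      coeff p.2 (DE_T h (coeff p.1 x) * u) := by
  rw [MvPowerSeries.coeff_mul]
  simp only [DE_coeff_Phi, Finset.sum_mul, MvPowerSeries.coeff_mul]
  exact DE_triple α fun a b c => coeff b (DE_T h (coeff a x)) * coeff c u

/-- the constant series -/
theorem DE_sw_const (f : LS k) :
    sw (mp (MvPowerSeries.C : k →+* BB k N) f) = MvPowerSeries.C f := by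
  ext α n
  rw [DE_coeff_sw, cf_cm, cf_mp, MvPowerSeries.coeff_C]
  show coeff α (MvPowerSeries.C (cf f n)) = _
  rw [MvPowerSeries.coeff_C]
  split_ifs <;> simp

theorem DE_sw_hD (j : ℕ) (f : LS (BB k N)) (α : Fin N →₀ ℕ) :
    coeff α (sw (hD j f)) = hD j (coeff α (sw f)) := by
  ext n
  rw [DE_coeff_sw, DE_coeff_sw, cf_cm]
  show coeff α (((Ring.choose (n + j) j : ℤ) : BB k N) * cf f (n + j)) =
    ((Ring.choose (n + j) j : ℤ) : k) * cf (cm (coeff (R := k) α).toAddMonoidHom f) (n + j)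
  rw [cf_cm, ← zsmul_eq_mul, ← zsmul_eq_mul, map_zsmul]
  rfl

theorem DE_hD_zero (R : Type) [CommRing R] (j : ℕ) : hD j (0 : LS R) = 0 := by
  ext n
  show ((Ring.choose (n + j) j : ℤ) : R) * cf (0 : LS R) (n + j) = 0
  rw [cf_zero, mul_zero]

theorem DE_hD_nought (R : Type) [CommRing R] (f : LS R) : hD 0 f = f := by
  ext n
  show ((Ring.choose (n + (0 : ℕ)) 0 : ℤ) : R) * cf f (n + (0 : ℕ)) = cf f n
  simp

theorem DE_sw_hD_const (j : ℕ) (f : LS k) :
    sw (hD j (mp (MvPowerSeries.C : k →+* BB k N) f)) = MvPowerSeries.C (hD j f) := by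
  ext1 α
  rw [DE_sw_hD, DE_sw_const, MvPowerSeries.coeff_C, MvPowerSeries.coeff_C]
  split_ifs with h0
  · rfl
  · exact DE_hD_zero k j

theorem DE_sw_pow (hDF : DF_stmt) (f : LS (BB k N)) (j : ℕ) : sw (f ^ j) = sw f ^ j := by
  obtain ⟨h1, -, h3, -⟩ := hDF k N
  induction j with
  | zero => rw [pow_zero, pow_zero, h1]
  | succ j ih => rw [pow_succ, pow_succ, h3, ih]

theorem DE_sw_sum (hDF : DF_stmt) {ι : Type} (s : Finset ι) (f : ι → LS (BB k N)) :
    sw (∑ i ∈ s, f i) = ∑ i ∈ s, sw (f i) := by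
  obtain ⟨-, h2, -⟩ := hDF k N
  have h0 : sw (0 : LS (BB k N)) = 0 := by
    have := h2 0 0
    rw [add_zero] at this
    exact left_eq_add.mp this
  induction s using Finset.induction_on with
  | empty => rw [Finset.sum_empty, Finset.sum_empty, h0]
  | insert a s ha ih => rw [Finset.sum_insert ha, Finset.sum_insert ha, h2, ih]

/-- `δ` comes from `LS B` -/
theorem DE_del (hDF : DF_stmt) (h : Fin N → LS k) : ∃ x : LS (BB k N), sw x = del h := by
  obtain ⟨-, -, h3, -, -, -, -, h8, -⟩ := hDF k N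
  refine ⟨∑ i, LS.C (MvPowerSeries.X i) * mp (MvPowerSeries.C : k →+* BB k N) (h i), ?_⟩
  rw [DE_sw_sum hDF]
  unfold del
  refine Finset.sum_congr rfl fun i _ => ?_
  rw [h3, h8, DE_sw_const]
  congr 1
  ext1 α
  show LS.C (coeff α (MvPowerSeries.X i)) = _
  rw [MvPowerSeries.coeff_X, MvPowerSeries.coeff_X]
  split_ifs <;> simp

theorem DE_term (hDE0 : DE0_stmt) (hDF : DF_stmt) (h : Fin N → LS k) (f : LS k) (j : ℕ) (hj : 1 ≤ j)
    (α : Fin N →₀ ℕ) :
    res (coeff α (MvPowerSeries.C (hD j f) * del h ^ j +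
      MvPowerSeries.C (hD (j - 1) f) * del h ^ (j - 1) * ddK (del h))) = 0 := by
  obtain ⟨x, hx⟩ := DE_del hDF h
  obtain ⟨-, h2, h3, -, h5, h6, -⟩ := hDF k N
  have h7 := hDE0 (BB k N) (mp (MvPowerSeries.C : k →+* BB k N) f) x j hj
  rw [← h6] at h7
  rw [h2, h3, h3, h3, DE_sw_pow hDF, DE_sw_pow hDF, DE_sw_hD_const, DE_sw_hD_const, ← h5, hx] at h7
  rw [← DE_coeff_resK, h7, map_zero]

theorem DE_T_trunc (hDB : DB_stmt) (h : Fin N → LS k) (f : LS k) (β : Fin N →₀ ℕ) (J : ℕ)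
    (hJ : β.degree ≤ J) :
    coeff β (DE_T h f) = coeff β (∑ j ∈ Finset.range (J + 1), MvPowerSeries.C (hD j f) * del h ^ j) := by
  obtain ⟨-, -, -, -, h5⟩ := hDB k N h
  rw [DE_coeff_T, map_sum]
  simp only [MvPowerSeries.coeff_C_mul]
  refine Finset.sum_subset ?_ ?_
  · intro j hj; rw [Finset.mem_range] at hj ⊢; omega
  · intro j _ hj
    rw [Finset.mem_range] at hj
    rw [h5 β j (by omega), mul_zero]

theorem DE_const (hDB : DB_stmt) (hDE0 : DE0_stmt) (hDF : DF_stmt) (h : Fin N → LS k) (f : LS k)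
    (e : Fin N →₀ ℕ) :
    res (coeff e (DE_T h f * (1 + ddK (del h)))) = if e = 0 then res f else 0 := by
  obtain ⟨-, -, -, -, hd⟩ := hDB k N h
  set J := e.degree with hJ
  -- replace the sum by a truncated one
  have h1 : coeff e (DE_T h f * (1 + ddK (del h))) =
      coeff e ((∑ j ∈ Finset.range (J + 1), MvPowerSeries.C (hD j f) * del h ^ j) * (1 + ddK (del h))) := by
    rw [MvPowerSeries.coeff_mul, MvPowerSeries.coeff_mul]
    refine Finset.sum_congr rfl fun q hq => ?_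
    have hq := Finset.HasAntidiagonal.mem_antidiagonal.mp hq
    rw [DE_T_trunc hDB h f q.1 J]
    rw [hJ, ← hq, map_add]
    exact Nat.le_add_right _ _
  have h2 : (∑ j ∈ Finset.range (J + 1), MvPowerSeries.C (hD j f) * del h ^ j) * (1 + ddK (del h)) =
      MvPowerSeries.C f + (∑ j ∈ Finset.range J, (MvPowerSeries.C (hD (j + 1) f) * del h ^ (j + 1) +
        MvPowerSeries.C (hD j f) * del h ^ j * ddK (del h))) +
        MvPowerSeries.C (hD J f) * del h ^ J * ddK (del h) := by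
    rw [mul_add, mul_one, Finset.sum_add_distrib]
    rw [Finset.sum_mul,
      Finset.sum_range_succ (fun j => MvPowerSeries.C (hD j f) * del h ^ j * ddK (del h)),
      Finset.sum_range_succ' (fun j => MvPowerSeries.C (hD j f) * del h ^ j),
      DE_hD_nought, pow_zero, mul_one]
    ring
  have h3 : coeff e (MvPowerSeries.C (hD J f) * del h ^ J * ddK (del h)) = 0 := by
    rw [mul_assoc, MvPowerSeries.coeff_C_mul, MvPowerSeries.coeff_mul]
    rw [Finset.sum_eq_zero, mul_zero]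
    intro q hq
    have hq := Finset.HasAntidiagonal.mem_antidiagonal.mp hq
    by_cases h4 : q.1.degree < J
    · rw [hd q.1 J h4, zero_mul]
    · have h5 : q.1.degree + q.2.degree = J := by rw [hJ, ← hq, map_add]
      have h6 : q.2.degree < 1 := by omega
      have h7 := hd q.2 1 h6
      rw [pow_one] at h7
      rw [DE_coeff_ddK, h7, map_zero, mul_zero]
  rw [h1, h2, map_add, map_add, h3, add_zero, res_add, map_sum, res_sum, Finset.sum_eq_zero, add_zero,
    MvPowerSeries.coeff_C]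
  · split_ifs <;> rfl
  · intro j _
    have h8 := DE_term hDE0 hDF h f (j + 1) (by omega) e
    rwa [Nat.add_sub_cancel] at h8

theorem DE (hDB : DB_stmt) (hDE0 : DE0_stmt) (hDF : DF_stmt) : DE_stmt := by
  intro k _ N h x
  ext1 α
  rw [DE_coeff_resK, DE_coeff_resK, DE_red, res_sum]
  rw [Finset.sum_congr rfl fun p _ => DE_const hDB hDE0 hDF h (coeff p.1 x) p.2]
  rw [Finset.sum_eq_single (α, 0)]
  · rw [if_pos rfl]
  · intro q hq hne
    have hq := Finset.HasAntidiagonal.mem_antidiagonal.mp hq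
    rw [if_neg]
    intro h0
    apply hne
    rw [h0, add_zero] at hq
    exact Prod.ext hq h0
  · intro hn
    exact absurd (Finset.HasAntidiagonal.mem_antidiagonal.mpr (add_zero α)) hn

end

end AN
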