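import Pool.Agent.helper48.AN.SpecF

namespace AN

open scoped Classical
open Pool.Agent.helper53.AU

noncomputable section

variable {k F : Type} [Field k] [Field F] [Algebra k F]

theorem FE_mem_RR (D : Place k F →₀ ℤ) (f : F) : f ∈ RR D ↔ ∀ P : Place k F, P.Ge (-D P) f := by
  constructor
  · rintro (h | h) P
    · rw [h]; exact P.ge_zero _
    · exact Or.inr (h P)
  · intro h
    by_cases hf : f = 0
    · exact Or.inl hf
    · exact Or.inr fun P => (h P).le hf

theorem FE_degD_add (D E : Place k F →₀ ℤ) : degD (D + E) = degD D + degD E := by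
  unfold degD
  exact Finsupp.sum_add_index' (fun _ => rfl) (fun _ _ _ => rfl)

theorem FE_degD_neg (D : Place k F →₀ ℤ) : degD (-D) = -degD D := by
  have h : degD (D + -D) = degD D + degD (-D) := FE_degD_add D (-D)
  rw [add_neg_cancel] at h
  have h0 : degD (0 : Place k F →₀ ℤ) = 0 := by unfold degD; exact Finsupp.sum_zero_index
  omega

theorem FE_degD_single (P : Place k F) (m : ℤ) : degD (Finsupp.single P m) = m := by
  unfold degD
  exact Finsupp.sum_single_index rfl

theorem FE_degD_nonneg (D : Place k F →₀ ℤ) (h : ∀ P, 0 ≤ D P) : 0 ≤ degD D := by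
  unfold degD
  exact Finset.sum_nonneg fun P _ => h P

/-- the canonical divisor -/
theorem FE_can [IsAlgClosed k] (hFF : IsFF k F) (g : ℕ) (hg : IsGenus k F g) (D : Derivation k F F)
    (hD : D ≠ 0) : ∃ κ : Place k F →₀ ℤ, (∀ P : Place k F, κ P = -P.ord (D P.unif)) ∧
      degD κ = 2 * (g : ℤ) - 2 := by
  obtain ⟨z, hz⟩ : ∃ z, D z ≠ 0 := by
    by_contra hc
    push Not at hc
    exact hD (Derivation.ext hc)
  obtain ⟨hfin, hsum⟩ := aQH1 k F hFF g hg D z hz
  obtain ⟨hp1, hp2, -⟩ := aQV6 k F hFF (D z) hz
  let δ : Place k F →₀ ℤ := Finsupp.ofSupportFinite (fun P : Place k F => P.dord D z) hfin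
  have hδ : ∀ P : Place k F, δ P = P.dord D z := fun P => rfl
  have hδd : degD δ = 2 * (g : ℤ) - 2 := by
    rw [← hsum]
    unfold degD
    rw [Finsupp.sum]
    symm
    have h1 : (fun P : Place k F => P.dord D z) = fun P => δ P := by
      funext P; rw [hδ]
    rw [h1]
    exact finsum_eq_sum_of_support_subset _ (by intro P hP; simpa using hP)
  refine ⟨δ + -prin (k := k) (D z), ?_, ?_⟩
  · intro P
    rw [Finsupp.add_apply, Finsupp.neg_apply, hδ, hp1]
    unfold Place.dord
    ring
  · rw [FE_degD_add, FE_degD_neg, hδd, hp2]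
    ring

theorem FE : FE_stmt := by
  intro k F _ _ _ _ hFF g hg P₀ D hD
  obtain ⟨κ, hκ, hκd⟩ := FE_can hFF g hg D hD
  obtain ⟨c, hc⟩ := (aQR3 k F hFF g hg).2
  have h1 : ∀ m : ℤ, regF P₀ m = RR (Finsupp.single P₀ m) := by
    intro m
    ext f
    rw [FE_mem_RR]
    constructor
    · rintro ⟨h1, h2⟩ P
      by_cases hP : P = P₀
      · subst hP; rwa [Finsupp.single_eq_same]
      · rw [Finsupp.single_eq_of_ne hP, neg_zero]; exact h1 P hP
    · intro h
      refine ⟨fun P hP => ?_, ?_⟩
      · have := h P
        rwa [Finsupp.single_eq_of_ne hP, neg_zero] at this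
      · have := h P₀
        rwa [Finsupp.single_eq_same] at this
  have h2 : ∀ m : ℤ, omF P₀ D m = RR (κ + Finsupp.single P₀ m) := by
    intro m
    ext f
    rw [FE_mem_RR]
    constructor
    · rintro ⟨h1, h2⟩ P
      rw [Finsupp.add_apply, hκ]
      by_cases hP : P = P₀
      · subst hP
        rw [Finsupp.single_eq_same]
        convert h2 using 1
        ring
      · rw [Finsupp.single_eq_of_ne hP]
        convert h1 P hP using 1
        ring
    · intro h
      refine ⟨fun P hP => ?_, ?_⟩
      · have := h P
        rw [Finsupp.add_apply, hκ, Finsupp.single_eq_of_ne hP] at this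
        convert this using 1
        ring
      · have := h P₀
        rw [Finsupp.add_apply, hκ, Finsupp.single_eq_same] at this
        convert this using 1
        ring
  have h3 : ∀ m : ℤ, vfF P₀ D m = RR (-κ + Finsupp.single P₀ m) := by
    intro m
    ext f
    rw [FE_mem_RR]
    constructor
    · rintro ⟨h1, h2⟩ P
      rw [Finsupp.add_apply, Finsupp.neg_apply, hκ]
      by_cases hP : P = P₀
      · subst hP
        rw [Finsupp.single_eq_same]
        convert h2 using 1
        ring
      · rw [Finsupp.single_eq_of_ne hP]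
        convert h1 P hP using 1
        ring
    · intro h
      refine ⟨fun P hP => ?_, ?_⟩
      · have := h P
        rw [Finsupp.add_apply, Finsupp.neg_apply, hκ, Finsupp.single_eq_of_ne hP] at this
        convert this using 1
        ring
      · have := h P₀
        rw [Finsupp.add_apply, Finsupp.neg_apply, hκ, Finsupp.single_eq_same] at this
        convert this using 1
        ring
  refine ⟨⟨(|c| + 2 * g + 2).toNat, fun m hm => ?_⟩, fun hg2 => ?_⟩
  · have hm' : |c| + 2 * g + 2 ≤ (m : ℤ) := by
      have := Int.self_le_toNat (|c| + 2 * g + 2)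
      omega
    have hc' := le_abs_self c
    refine ⟨?_, ?_, ?_⟩
    · have h := hc (Finsupp.single P₀ (m : ℤ)) (by rw [FE_degD_single]; omega)
      rw [FE_degD_single] at h
      unfold ell at h
      rw [h1]
      omega
    · have h := hc (κ + Finsupp.single P₀ (m : ℤ)) (by rw [FE_degD_add, FE_degD_single, hκd]; omega)
      rw [FE_degD_add, FE_degD_single, hκd] at h
      unfold ell at h
      rw [h2]
      omega
    · have h := hc (-κ + Finsupp.single P₀ (m : ℤ))
        (by rw [FE_degD_add, FE_degD_neg, FE_degD_single, hκd]; omega)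
      rw [FE_degD_add, FE_degD_neg, FE_degD_single, hκd] at h
      unfold ell at h
      rw [h3]
      omega
  · rw [h3, Finsupp.single_zero, add_zero, Submodule.eq_bot_iff]
    intro v hv
    by_contra hv0
    rw [FE_mem_RR] at hv
    obtain ⟨hp1, hp2, -⟩ := aQV6 k F hFF v hv0
    have h4 : 0 ≤ degD (prin (k := k) v + -κ) := by
      apply FE_degD_nonneg
      intro P
      have h5 := (hv P).le hv0
      rw [Finsupp.neg_apply, neg_neg] at h5
      rw [Finsupp.add_apply, Finsupp.neg_apply, hp1]
      omega
    rw [FE_degD_add, FE_degD_neg, hp2, hκd] at h4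
    omega

end

end AN
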