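import Pool.Agent.helper43.AN.PAcomplete

namespace AN

open scoped Classical
open MvPowerSeries (constantCoeff coeff)

noncomputable section

/-- abstract nonsense: `A → B / (e⁻¹ g)` for `A`-algebra quotient `B' / (g)` finite over `A` -/
theorem PC_transport {k A B C : Type} [Field k] [CommRing A] [Algebra k A] [CommRing B] [Algebra k B]
    [CommRing C] [Algebra k C] [Algebra A C] [IsScalarTower k A C] (e : B ≃ₐ[k] C) (π : B)
    (h1 : Function.Injective (algebraMap A (C ⧸ Ideal.span {e π})))
    (h2 : Module.Finite A (C ⧸ Ideal.span {e π})) :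
    ∃ φ : A →ₐ[k] B ⧸ Ideal.span {π}, Function.Injective φ ∧ φ.toRingHom.Finite := by
  have hI : Ideal.span {π} = (Ideal.span {e π}).map (e.symm : C →+* B) := by
    rw [Ideal.map_span, Set.image_singleton]
    congr 2
    exact (e.symm_apply_apply π).symm
  let E : (C ⧸ Ideal.span {e π}) ≃ₐ[k] B ⧸ Ideal.span {π} :=
    Ideal.quotientEquivAlg (Ideal.span {e π}) (Ideal.span {π}) e.symm hI
  let ψ : A →ₐ[k] C ⧸ Ideal.span {e π} := IsScalarTower.toAlgHom k A (C ⧸ Ideal.span {e π})
  refine ⟨(E : (C ⧸ Ideal.span {e π}) →ₐ[k] B ⧸ Ideal.span {π}).comp ψ, ?_, ?_⟩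
  · exact E.injective.comp h1
  · have h3 : ψ.toRingHom.Finite := by
      show (algebraMap A (C ⧸ Ideal.span {e π})).Finite
      exact RingHom.finite_algebraMap.mpr h2
    have h4 : (E : (C ⧸ Ideal.span {e π}) →ₐ[k] B ⧸ Ideal.span {π}).toRingHom.Finite :=
      RingHom.Finite.of_surjective _ E.surjective
    exact h4.comp h3

theorem PC (hPB : PB_stmt) : PC_stmt := by
  intro k _ _ n π hπ0 hπu
  have hdn : IsDomain (BB k n) := NoZeroDivisors.to_isDomain _
  obtain ⟨σ, hσ⟩ := hPB k n π hπ0
  let e : BB k (n+1) ≃ₐ[k] PowerSeries (BB k n) := σ.trans (MvPowerSeries.finSuccEquiv k n)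
  have hg : (e π).map (IsLocalRing.residue (BB k n)) ≠ 0 := by
    intro h0
    apply hσ
    ext m
    have h1 := congrArg (PowerSeries.coeff m) h0
    rw [PowerSeries.coeff_map, map_zero, IsLocalRing.residue_eq_zero_iff, PA_mem_max] at h1
    rw [PowerSeries.coeff_map, map_zero]
    exact h1
  obtain ⟨F, h, hW⟩ := PowerSeries.exists_isWeierstrassFactorization hg
  have hFm : F.Monic := hW.isDistinguishedAt.monic
  have hdeg : F.natDegree ≠ 0 := by
    intro h0
    have hF1 : F = 1 := Polynomial.eq_one_of_monic_natDegree_zero hFm h0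
    apply hπu
    have h1 : IsUnit (e π) := by
      rw [hW.eq_mul, hF1, Polynomial.coe_one, one_mul]
      exact hW.isUnit
    exact (MulEquiv.isUnit_map e).mp h1
  have E := hW.algEquivQuotient
  refine PC_transport e π ?_ ?_
  · have h1 : Function.Injective (algebraMap (BB k n) (Polynomial (BB k n) ⧸ Ideal.span {F})) := by
      exact AdjoinRoot.of.injective_of_degree_ne_zero (by
        rw [Polynomial.degree_eq_natDegree hFm.ne_zero]
        exact_mod_cast hdeg)
    intro a b hab
    apply h1
    have h2 := congrArg E.symm hab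
    rwa [AlgEquiv.commutes, AlgEquiv.commutes] at h2
  · have h3 : Module.Finite (BB k n) (Polynomial (BB k n) ⧸ Ideal.span {F}) := hFm.finite_quotient
    exact Module.Finite.equiv E.toLinearEquiv

end

end AN
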