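import Pool.Agent.helper48.AN.SpecZ

namespace AN

open scoped Classical
open Pool.Agent.helper53.AU

noncomputable section

/-! ### an abstract lemma -/

section abs

variable {S E F : Type} [CommRing S] [Field E] [Field F] (j : S →+* E) (ρ : S →+* F)

/-- the fractions with a denominator outside the kernel of `ρ` -/
def ZF_O (hj : Function.Injective j) (t : S) (ht : t ≠ 0)
    (h2 : ∀ x : S, x ≠ 0 → ∃ (n : ℕ) (y : S), ρ y ≠ 0 ∧ x = t ^ n * y)
    (h3 : ∀ e : E, ∃ α β : S, β ≠ 0 ∧ e * j β = j α) : ValuationSubring E where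
  carrier := {e | ∃ α β : S, ρ β ≠ 0 ∧ e * j β = j α}
  mul_mem' := by
    rintro a b ⟨α, β, h, h'⟩ ⟨α', β', i, i'⟩
    refine ⟨α * α', β * β', ?_, ?_⟩
    · rw [map_mul]; exact mul_ne_zero h i
    · rw [map_mul, map_mul, ← h', ← i']; ring
  one_mem' := ⟨1, 1, by rw [map_one]; exact one_ne_zero, by rw [map_one, mul_one]⟩
  add_mem' := by
    rintro a b ⟨α, β, h, h'⟩ ⟨α', β', i, i'⟩
    refine ⟨α * β' + α' * β, β * β', ?_, ?_⟩
    · rw [map_mul]; exact mul_ne_zero h i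
    · rw [map_mul, map_add, map_mul, map_mul, ← h', ← i']; ring
  zero_mem' := ⟨0, 1, by rw [map_one]; exact one_ne_zero, by rw [map_one, map_zero, mul_one]⟩
  neg_mem' := by
    rintro a ⟨α, β, h, h'⟩
    exact ⟨-α, β, h, by rw [map_neg, ← h']; ring⟩
  mem_or_inv_mem' := by
    intro e
    by_cases he : e = 0
    · left
      rw [he]
      exact ⟨0, 1, by rw [map_one]; exact one_ne_zero, by rw [map_one, map_zero, mul_one]⟩
    obtain ⟨α, β, hβ, h⟩ := h3 e
    have hjne : ∀ x : S, x ≠ 0 → j x ≠ 0 := fun x hx h0 => hx (hj (by rw [h0, map_zero]))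
    have hα : α ≠ 0 := by
      rintro rfl
      rw [map_zero] at h
      exact mul_ne_zero he (hjne β hβ) h
    obtain ⟨m, α', hα', rfl⟩ := h2 α hα
    obtain ⟨n, β', hβ', rfl⟩ := h2 β hβ
    rw [map_mul, map_mul, map_pow, map_pow] at h
    have ht' := hjne t ht
    rcases le_total n m with hnm | hnm
    · left
      refine ⟨t ^ (m - n) * α', β', hβ', ?_⟩
      rw [map_mul, map_pow]
      apply mul_left_cancel₀ (pow_ne_zero n ht')
      have h5 : j t ^ n * (j t ^ (m - n) * j α') = j t ^ m * j α' := by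
        rw [← mul_assoc, ← pow_add, Nat.add_sub_cancel' hnm]
      rw [h5, ← h]
      ring
    · right
      refine ⟨t ^ (n - m) * β', α', hα', ?_⟩
      rw [map_mul, map_pow]
      apply mul_left_cancel₀ (pow_ne_zero m ht')
      have h5 : j t ^ m * (j t ^ (n - m) * j β') = j t ^ n * j β' := by
        rw [← mul_assoc, ← pow_add, Nat.add_sub_cancel' hnm]
      rw [h5]
      apply mul_left_cancel₀ he
      rw [h]
      field_simp

theorem ZF_mem_O (hj : Function.Injective j) (t : S) (ht : t ≠ 0)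
    (h2 : ∀ x : S, x ≠ 0 → ∃ (n : ℕ) (y : S), ρ y ≠ 0 ∧ x = t ^ n * y)
    (h3 : ∀ e : E, ∃ α β : S, β ≠ 0 ∧ e * j β = j α) (e : E) :
    e ∈ ZF_O j ρ hj t ht h2 h3 ↔ ∃ α β : S, ρ β ≠ 0 ∧ e * j β = j α := Iff.rfl

theorem ZF_abs (hj : Function.Injective j) (t : S) (ht : t ≠ 0)
    (h1 : ∀ x : S, ρ x = 0 ↔ ∃ y, x = t * y)
    (h2 : ∀ x : S, x ≠ 0 → ∃ (n : ℕ) (y : S), ρ y ≠ 0 ∧ x = t ^ n * y)
    (h3 : ∀ e : E, ∃ α β : S, β ≠ 0 ∧ e * j β = j α)
    (h4 : ∀ f : F, ∃ α β : S, ρ β ≠ 0 ∧ f * ρ β = ρ α) :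
    ∃ (O : ValuationSubring E) (π : O →+* F), Function.Surjective π ∧
      (∀ x : O, π x = 0 ↔ ∃ y : O, (x : E) = j t * y) ∧ (∀ s : S, j s ∈ O) ∧
      ∀ (s : S) (x : O), (x : E) = j s → π x = ρ s := by
  have hjne : ∀ x : S, ρ x ≠ 0 → j x ≠ 0 := fun x hx h0 => hx (by
    rw [hj (h0.trans (map_zero j).symm), map_zero])
  let O := ZF_O j ρ hj t ht h2 h3
  have hO : ∀ e : E, e ∈ O ↔ ∃ α β : S, ρ β ≠ 0 ∧ e * j β = j α := fun e => Iff.rfl
  have hex : ∀ x : O, ∃ f : F, ∃ α β : S, ρ β ≠ 0 ∧ (x : E) * j β = j α ∧ f * ρ β = ρ α := by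
    intro x
    obtain ⟨α, β, hβ, h⟩ := (hO x).mp x.2
    exact ⟨ρ α / ρ β, α, β, hβ, h, div_mul_cancel₀ _ hβ⟩
  choose π₀ hπ₀ using hex
  have key : ∀ (x : O) (α β : S), ρ β ≠ 0 → (x : E) * j β = j α → π₀ x * ρ β = ρ α := by
    intro x α β hβ h
    obtain ⟨α', β', hβ', h', h''⟩ := hπ₀ x
    have h5 : j (α * β') = j (α' * β) := by
      rw [map_mul, map_mul, ← h, ← h']; ring
    have h6 := congrArg ρ (hj h5)
    rw [map_mul, map_mul] at h6
    apply mul_right_cancel₀ hβ'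
    rw [h6, ← h'']
    ring
  have key' : ∀ (x : O) (α β : S) (f : F), ρ β ≠ 0 → (x : E) * j β = j α → f * ρ β = ρ α →
      π₀ x = f := by
    intro x α β f hβ h h'
    apply mul_right_cancel₀ hβ
    rw [key x α β hβ h, h']
  let π : O →+* F :=
    { toFun := π₀
      map_one' := key' 1 1 1 1 (by rw [map_one]; exact one_ne_zero)
        (by rw [map_one, mul_one]; rfl) (by rw [map_one, mul_one])
      map_zero' := key' 0 0 1 0 (by rw [map_one]; exact one_ne_zero)
        (by rw [map_one, mul_one, map_zero]; rfl) (by rw [map_zero, zero_mul])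
      map_mul' := by
        intro x y
        obtain ⟨α, β, hβ, h, h'⟩ := hπ₀ x
        obtain ⟨α₁, β₁, hβ₁, i, i'⟩ := hπ₀ y
        apply key' (x * y) (α * α₁) (β * β₁)
        · rw [map_mul]; exact mul_ne_zero hβ hβ₁
        · show ((x : E) * (y : E)) * j (β * β₁) = _
          rw [map_mul, map_mul, ← h, ← i]; ring
        · rw [map_mul, map_mul, ← h', ← i']; ring
      map_add' := by
        intro x y
        obtain ⟨α, β, hβ, h, h'⟩ := hπ₀ x
        obtain ⟨α₁, β₁, hβ₁, i, i'⟩ := hπ₀ y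
        apply key' (x + y) (α * β₁ + α₁ * β) (β * β₁)
        · rw [map_mul]; exact mul_ne_zero hβ hβ₁
        · show ((x : E) + (y : E)) * j (β * β₁) = _
          rw [map_mul, map_add, map_mul, map_mul, ← h, ← i]; ring
        · rw [map_mul, map_add, map_mul, map_mul, ← h', ← i']; ring }
  have hπ : ∀ x, π x = π₀ x := fun x => rfl
  refine ⟨O, π, ?_, ?_, ?_, ?_⟩
  · intro f
    obtain ⟨α, β, hβ, h⟩ := h4 f
    have hx : j α / j β ∈ O := (hO _).mpr ⟨α, β, hβ, div_mul_cancel₀ _ (hjne β hβ)⟩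
    exact ⟨⟨_, hx⟩, key' ⟨_, hx⟩ α β f hβ (div_mul_cancel₀ _ (hjne β hβ)) h⟩
  · intro x
    rw [hπ]
    constructor
    · intro h
      obtain ⟨α, β, hβ, h', h''⟩ := hπ₀ x
      rw [h, zero_mul] at h''
      obtain ⟨y, rfl⟩ := (h1 α).mp h''.symm
      have hx : j y / j β ∈ O := (hO _).mpr ⟨y, β, hβ, div_mul_cancel₀ _ (hjne β hβ)⟩
      refine ⟨⟨_, hx⟩, ?_⟩
      apply mul_right_cancel₀ (hjne β hβ)
      show (x : E) * j β = j t * (j y / j β) * j β
      rw [h', map_mul, mul_assoc, div_mul_cancel₀ _ (hjne β hβ)]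
    · rintro ⟨y, hy⟩
      obtain ⟨α, β, hβ, h', -⟩ := hπ₀ y
      apply key' x (t * α) β 0 hβ
      · rw [hy, map_mul, ← h']; ring
      · rw [zero_mul]
        exact ((h1 (t * α)).mpr ⟨α, rfl⟩).symm
  · intro s
    exact (hO _).mpr ⟨s, 1, by rw [map_one]; exact one_ne_zero, by rw [map_one, mul_one]⟩
  · intro s x hx
    rw [hπ]
    exact key' x s 1 _ (by rw [map_one]; exact one_ne_zero) (by rw [map_one, mul_one, hx])
      (by rw [map_one, mul_one])

end abs

/-! ### the module `AA` -/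

theorem ZF_mp_AA {R R' : Type} [CommRing R] [CommRing R'] (φ : R →+* R') {g : ℕ} (γ : Fin g → ℕ)
    (a : ℕ → LS R) (a' : ℕ → LS R') (ha : ∀ r, ¬ Gp γ r → mp φ (a r) = a' r) (x : LS R)
    (hx : x ∈ AA γ a) : mp φ x ∈ AA γ a' := by
  unfold AA at hx
  induction hx using Submodule.span_induction with
  | mem x h =>
    obtain ⟨r, hr, rfl⟩ := h
    rw [ha r hr]
    exact Submodule.subset_span ⟨r, hr, rfl⟩
  | zero => rw [map_zero]; exact Submodule.zero_mem _
  | add x y _ _ hx hy => rw [map_add]; exact Submodule.add_mem _ hx hy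
  | smul c x _ hx => rw [mp_smul]; exact Submodule.smul_mem _ _ hx

theorem ZF_lift {R R' : Type} [CommRing R] [CommRing R'] (φ : R →+* R') (hφ : Function.Surjective φ)
    {g : ℕ} (γ : Fin g → ℕ)
    (a : ℕ → LS R) (a' : ℕ → LS R') (ha : ∀ r, ¬ Gp γ r → mp φ (a r) = a' r) (x : LS R')
    (hx : x ∈ AA γ a') : ∃ y ∈ AA γ a, mp φ y = x := by
  unfold AA at hx
  induction hx using Submodule.span_induction with
  | mem x h =>
    obtain ⟨r, hr, rfl⟩ := h
    exact ⟨a r, Submodule.subset_span ⟨r, hr, rfl⟩, ha r hr⟩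
  | zero => exact ⟨0, Submodule.zero_mem _, map_zero _⟩
  | add x y _ _ hx hy =>
    obtain ⟨x', h1, h2⟩ := hx
    obtain ⟨y', h3, h4⟩ := hy
    exact ⟨x' + y', Submodule.add_mem _ h1 h3, by rw [map_add, h2, h4]⟩
  | smul c x _ hx =>
    obtain ⟨x', h1, h2⟩ := hx
    obtain ⟨c', hc'⟩ := hφ c
    exact ⟨c' • x', Submodule.smul_mem _ _ h1, by rw [mp_smul, h2, hc']⟩

/-- `AA` as a ring -/
def ZF_S (hKB : KB_stmt) {R : Type} [CommRing R] {g : ℕ} (γ : Fin g → ℕ) (A : ℕ → LS R)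
    (hA : IsK γ A) : Subring (LS R) where
  carrier := AA γ A
  mul_mem' := fun {x y} hx hy => (hKB R g γ A hA).2.2.2.1 x hx y hy
  one_mem' := by
    have h := (hKB R g γ A hA).2.1 1
    rwa [map_one] at h
  add_mem' := fun {x y} hx hy => Submodule.add_mem _ hx hy
  zero_mem' := Submodule.zero_mem _
  neg_mem' := fun {x} hx => Submodule.neg_mem _ hx

theorem ZF_mem_S (hKB : KB_stmt) {R : Type} [CommRing R] {g : ℕ} (γ : Fin g → ℕ) (A : ℕ → LS R)
    (hA : IsK γ A) (x : LS R) : x ∈ ZF_S hKB γ A hA ↔ x ∈ AA γ A := Iff.rfl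

theorem ZF_Cinj (R : Type) [CommRing R] (c : R) (h : LS.C c = 0) : c = 0 := by
  have h1 : cf (LS.C c) 0 = 0 := by rw [h, cf_zero]
  rwa [cf_C, if_pos rfl] at h1

theorem ZF_h3 (hZA1 : ZA1_stmt) (hZE : ZE_stmt) {k : Type} [Field k] {g : ℕ} (γ : Fin g → ℕ)
    (A : ℕ → LS (PowerSeries k)) (hA : IsK γ A)
    (hK' : IsK γ (fun r => mp (algebraMap (PowerSeries k) (LaurentSeries k)) (A r)))
    (e : LS (LaurentSeries k))
    (he : e ∈ EF γ (fun r => mp (algebraMap (PowerSeries k) (LaurentSeries k)) (A r))) :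
    ∃ α' ∈ AA γ A, ∃ β' ∈ AA γ A, mp (algebraMap (PowerSeries k) (LaurentSeries k)) β' ≠ 0 ∧
      e * mp (algebraMap (PowerSeries k) (LaurentSeries k)) β' =
        mp (algebraMap (PowerSeries k) (LaurentSeries k)) α' := by
  obtain ⟨α, hα, β, hβ, hβ0, h⟩ := (hZA1 (LaurentSeries k) g γ _ hK' e).mp he
  obtain ⟨-, -, hE3⟩ := hZE k g γ A hA
  obtain ⟨n, α', hα', h1⟩ := hE3 α hα
  obtain ⟨m, β', hβ', h2⟩ := hE3 β hβ
  have hX0 : LS.C (algebraMap (PowerSeries k) (LaurentSeries k) PowerSeries.X) ≠ 0 := by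
    intro h0
    have h3 := ZF_Cinj _ _ h0
    rw [← map_zero (algebraMap (PowerSeries k) (LaurentSeries k))] at h3
    exact PowerSeries.X_ne_zero (IsFractionRing.injective (PowerSeries k) (LaurentSeries k) h3)
  have hX : ∀ n : ℕ, mp (algebraMap (PowerSeries k) (LaurentSeries k)) (LS.C (PowerSeries.X ^ n)) =
      LS.C (algebraMap (PowerSeries k) (LaurentSeries k) PowerSeries.X) ^ n := by
    intro n
    rw [mp_C, map_pow, map_pow]
  refine ⟨PowerSeries.X ^ m • α', Submodule.smul_mem _ _ hα', PowerSeries.X ^ n • β',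
    Submodule.smul_mem _ _ hβ', ?_, ?_⟩
  · rw [← C_mul, map_mul, hX, ← h2]
    exact mul_ne_zero (pow_ne_zero _ hX0) (mul_ne_zero (pow_ne_zero _ hX0) hβ0)
  · rw [← C_mul, ← C_mul, map_mul, map_mul, hX, hX, ← h1, ← h2, ← h]
    ring

theorem ZF (hKB : KB_stmt) (hBC : BC_stmt) (hZA1 : ZA1_stmt) (hZC : ZC_stmt) (hZE : ZE_stmt) :
    ZF_stmt := by
  intro k F₀ _ _ _ _ hFF P₀ ι hι g γ a hK hAA A hA ha
  let φ : PowerSeries k →+* LaurentSeries k := algebraMap (PowerSeries k) (LaurentSeries k)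
  have hφ : Function.Injective φ := IsFractionRing.injective (PowerSeries k) (LaurentSeries k)
  let aK : ℕ → LS (LaurentSeries k) := fun r => mp φ (A r)
  have hK' : IsK γ aK := (hBC (PowerSeries k) (LaurentSeries k) φ g 0 γ A (fun i => i.elim0)
    (fun _ => 0) hA).1
  obtain ⟨hE1, hE2, hE3⟩ := hZE k g γ A hA
  have hcs : Function.Surjective (PowerSeries.constantCoeff (R := k)) := fun c =>
    ⟨PowerSeries.C c, PowerSeries.constantCoeff_C c⟩
  -- the ring
  let S : Subring (LS (PowerSeries k)) := ZF_S hKB γ A hA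
  have hS : ∀ x, x ∈ S ↔ x ∈ AA γ A := fun x => Iff.rfl
  have hCS : ∀ c : PowerSeries k, LS.C c ∈ S := (hKB (PowerSeries k) g γ A hA).2.1
  -- the map to `E`
  let j : S →+* EF γ aK := ((mp φ).comp S.subtype).codRestrict (EF γ aK) fun x => by
    apply IntermediateField.subset_adjoin
    exact ZF_mp_AA φ γ A aK (fun r _ => rfl) x x.2
  have hj' : ∀ x : S, ((j x : EF γ aK) : LS (LaurentSeries k)) = mp φ (x : LS (PowerSeries k)) :=
    fun x => rfl
  have hj : Function.Injective j := by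
    intro x y hxy
    apply Subtype.ext
    apply mp_injective hφ
    rw [← hj', ← hj', hxy]
  -- the reduction
  have hex : ∀ x : S, ∃ f : F₀, ι f = mp (PowerSeries.constantCoeff (R := k)) (x : LS (PowerSeries k)) := by
    intro x
    have h := ZF_mp_AA (PowerSeries.constantCoeff (R := k)) γ A a ha x x.2
    obtain ⟨f, -, hf⟩ := (hAA _).mp h
    exact ⟨f, hf.symm⟩
  choose ρ₀ hρ₀ using hex
  have hιi : Function.Injective ι := ι.injective
  let ρ : S →+* F₀ :=
    { toFun := ρ₀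
      map_one' := hιi (by rw [hρ₀, map_one]; exact map_one _)
      map_zero' := hιi (by rw [hρ₀, map_zero]; exact map_zero _)
      map_mul' := fun x y => hιi (by rw [map_mul, hρ₀, hρ₀, hρ₀]; exact map_mul _ _ _)
      map_add' := fun x y => hιi (by rw [map_add, hρ₀, hρ₀, hρ₀]; exact map_add _ _ _) }
  have hρ : ∀ x : S, ι (ρ x) = mp (PowerSeries.constantCoeff (R := k)) (x : LS (PowerSeries k)) := hρ₀
  have hρ0 : ∀ x : S, ρ x = 0 ↔ mp (PowerSeries.constantCoeff (R := k)) (x : LS (PowerSeries k)) = 0 := by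
    intro x
    rw [← hρ]
    constructor
    · intro h; rw [h, map_zero]
    · intro h; exact hιi (by rw [h, map_zero])
  let t : S := ⟨LS.C PowerSeries.X, hCS _⟩
  have ht : t ≠ 0 := by
    intro h
    have h1 : LS.C (PowerSeries.X : PowerSeries k) = 0 := congrArg Subtype.val h
    exact PowerSeries.X_ne_zero (ZF_Cinj _ _ h1)
  obtain ⟨O, π, hπs, hπ0, hO, hπ⟩ := ZF_abs j ρ hj t ht
    (by
      intro x
      rw [hρ0]
      constructor
      · intro h
        obtain ⟨y, hy, hxy⟩ := hE1 x x.2 h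
        refine ⟨⟨y, hy⟩, Subtype.ext ?_⟩
        show (x : LS (PowerSeries k)) = LS.C PowerSeries.X * y
        rw [C_mul, hxy]
      · rintro ⟨y, rfl⟩
        show mp (PowerSeries.constantCoeff (R := k)) (LS.C PowerSeries.X * (y : LS (PowerSeries k))) = 0
        rw [map_mul, mp_C, PowerSeries.constantCoeff_X, map_zero, zero_mul])
    (by
      intro x hx
      have hx' : (x : LS (PowerSeries k)) ≠ 0 := fun h => hx (Subtype.ext h)
      obtain ⟨n, y, hy, hy0, hxy⟩ := hE2 x x.2 hx'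
      refine ⟨n, ⟨y, hy⟩, fun h => hy0 ((hρ0 _).mp h), Subtype.ext ?_⟩
      show (x : LS (PowerSeries k)) = LS.C PowerSeries.X ^ n * y
      rw [← map_pow, C_mul, hxy])
    (by
      intro e
      obtain ⟨α', hα', β', hβ', h0, h⟩ := ZF_h3 hZA1 hZE γ A hA hK' (e : LS (LaurentSeries k)) e.2
      refine ⟨⟨α', hα'⟩, ⟨β', hβ'⟩, ?_, Subtype.ext h⟩
      intro h3
      have h4 : β' = 0 := congrArg Subtype.val h3
      rw [h4, map_zero] at h0
      exact h0 rfl)
    (by
      intro f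
      obtain ⟨b, hb, hb0, hc⟩ := hZC k F₀ hFF P₀ f
      obtain ⟨β, hβ, hβ'⟩ := ZF_lift _ hcs γ A a ha (ι b) ((hAA _).mpr ⟨b, hb, rfl⟩)
      obtain ⟨α, hα, hα'⟩ := ZF_lift _ hcs γ A a ha (ι (f * b)) ((hAA _).mpr ⟨_, hc, rfl⟩)
      have h1 : ρ ⟨β, hβ⟩ = b := hιi (by rw [hρ]; exact hβ')
      have h2 : ρ ⟨α, hα⟩ = f * b := hιi (by rw [hρ]; exact hα')
      exact ⟨⟨α, hα⟩, ⟨β, hβ⟩, by rw [h1]; exact hb0, by rw [h1, h2]⟩)
  have hjC : ∀ c : PowerSeries k, j ⟨LS.C c, hCS c⟩ =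
      algebraMap (LaurentSeries k) (EF γ aK) (algebraMap (PowerSeries k) (LaurentSeries k) c) := by
    intro c
    apply Subtype.ext
    rw [hj']
    show mp φ (LS.C c) = LS.C (φ c)
    rw [mp_C]
  have hjt : j t = algebraMap (LaurentSeries k) (EF γ aK)
      (algebraMap (PowerSeries k) (LaurentSeries k) PowerSeries.X) := hjC _
  refine ⟨O, π, hπs, ?_, ?_, ?_⟩
  · intro x
    rw [hπ0 x, hjt]
  · intro c
    constructor
    · intro hc
      by_contra hr
      have hr' : c⁻¹ ∈ Set.range (algebraMap (PowerSeries k) (LaurentSeries k)) := by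
        rcases ValuationRing.isInteger_or_isInteger (PowerSeries k) c with h | h
        · exact absurd h hr
        · exact h
      obtain ⟨d, hd⟩ := hr'
      have hc0 : c ≠ 0 := by
        rintro rfl
        exact hr ⟨0, map_zero _⟩
      have hd0 : PowerSeries.constantCoeff d = 0 := by
        by_contra h0
        have h1 : IsUnit d := PowerSeries.isUnit_iff_constantCoeff.mpr (isUnit_iff_ne_zero.mpr h0)
        obtain ⟨u, rfl⟩ := h1
        apply hr
        refine ⟨((u⁻¹ : (PowerSeries k)ˣ) : PowerSeries k), ?_⟩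
        have h2 : algebraMap (PowerSeries k) (LaurentSeries k) ((u⁻¹ : (PowerSeries k)ˣ) : PowerSeries k) * c⁻¹ = 1 := by
          rw [← hd, ← map_mul, Units.inv_mul, map_one]
        field_simp at h2
        exact h2
      have h3 : algebraMap (LaurentSeries k) (EF γ aK) c⁻¹ ∈ O := by
        rw [← hd, ← hjC]
        exact hO _
      have h4 : π ⟨_, h3⟩ = 0 := by
        have h5 := hπ ⟨LS.C d, hCS d⟩ ⟨_, h3⟩ (by rw [hjC, hd])
        rw [h5]
        rw [hρ0]
        show mp (PowerSeries.constantCoeff (R := k)) (LS.C d) = 0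
        rw [mp_C, hd0, map_zero]
      have h5 : (⟨_, hc⟩ : O) * ⟨_, h3⟩ = 1 := by
        apply Subtype.ext
        show algebraMap (LaurentSeries k) (EF γ aK) c * algebraMap (LaurentSeries k) (EF γ aK) c⁻¹ = 1
        rw [← map_mul, mul_inv_cancel₀ hc0, map_one]
      have h6 := congrArg π h5
      rw [map_mul, h4, mul_zero, map_one] at h6
      exact zero_ne_one h6
    · rintro ⟨d, rfl⟩
      rw [← hjC]
      exact hO _
  · intro c x hx
    rw [hπ ⟨LS.C c, hCS c⟩ x (by rw [hjC, hx])]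
    apply hιi
    rw [hρ, hι.const]
    show mp (PowerSeries.constantCoeff (R := k)) (LS.C c) = _
    rw [mp_C]

end

end AN
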